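import Pool.Agent.Q208.Null

/-!
# Two higher dimensional bounding numbers

For a relation `R` between reals and objects `Y` and an ideal `I` on Baire space, the relation
`R_I` between functions `f : ω^ω → ω^ω` and `g : ω^ω → Y` holds iff `{x : ¬ f(x) R g(x)} ∈ I`, and
`b(R_I)` is the least size of a family of functions `f` which is not `R_I`-bounded by one `g`.

We prove in ZFC that `b(∈*_K) ≤ b(≠*_N)`, where `K` is the ideal of subsets of `σ`-compact sets and
`N` is the null ideal of an arbitrary atomless Borel probability measure on Baire space.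
-/

open Filter Cardinal Set MeasureTheory Topology Q208
open scoped ENNReal

namespace Pool.Agent.Results.MP_1e8244_lc.NullVsCompact

/-- Baire space `ω^ω`. -/
abbrev Baire : Type := ℕ → ℕ

/-- Slaloms: functions `s : ω → [ω]^{<ω}` with `|s(n)| ≤ n` for all `n`. -/
def Slalom : Type := {s : ℕ → Finset ℕ // ∀ n, (s n).card ≤ n}

/-- `x ≠* y`: `x(k) ≠ y(k)` for all but finitely many `k`. -/
def neStar (x y : Baire) : Prop := ∀ᶠ k in atTop, x k ≠ y k

/-- `x ∈* s`: `x(k) ∈ s(k)` for all but finitely many `k`. -/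
def inStar (x : Baire) (s : Slalom) : Prop := ∀ᶠ k in atTop, x k ∈ s.1 k

/-- The ideal `K` of subsets of `σ`-compact sets. -/
def idealK : Set (Set Baire) :=
  {B | ∃ C : ℕ → Set Baire, (∀ n, IsCompact (C n)) ∧ B ⊆ ⋃ n, C n}

/-- The ideal `N` of the null sets of the measure `μ`. -/
def idealN (μ : Measure Baire) : Set (Set Baire) := {B | μ B = 0}

/-- `f R_I g` iff `{x : ¬ f(x) R g(x)} ∈ I`. -/
def relMod {Y : Type} (R : Baire → Y → Prop) (I : Set (Set Baire)) (f : Baire → Baire)
    (g : Baire → Y) : Prop := {x | ¬ R (f x) (g x)} ∈ I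

/-- The bounding number `b(R_I)`: the least size of a family of functions `f : ω^ω → ω^ω` for
which there is no `g` with `f R_I g` for all `f` in the family. -/
noncomputable def bnum {Y : Type} (R : Baire → Y → Prop) (I : Set (Set Baire)) : Cardinal.{0} :=
  sInf {κ : Cardinal.{0} | ∃ A : Set (Baire → Baire),
    (¬ ∃ g : Baire → Y, ∀ f ∈ A, relMod R I f g) ∧ #A = κ}

theorem bnum_le {Y : Type} {R : Baire → Y → Prop} {I : Set (Set Baire)} {ι : Type}
    (f : ι → Baire → Baire) (h : ¬ ∃ g : Baire → Y, ∀ i, relMod R I (f i) g) :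
    bnum R I ≤ #ι := by
  refine le_trans (csInf_le' ⟨Set.range f, ?_, rfl⟩) Cardinal.mk_range_le
  rintro ⟨g, hg⟩
  exact h ⟨g, fun i => hg _ ⟨i, rfl⟩⟩

theorem K_bounded {B : Set Baire} (hB : B ∈ idealK) :
    ∃ h : Baire, ∀ x ∈ B, ∀ᶠ k in atTop, x k ≤ h k := by
  obtain ⟨C, hC, hBC⟩ := hB
  have h1 : ∀ n k, ∃ b, ∀ x ∈ C n, x k ≤ b := by
    intro n k
    have : IsCompact ((fun x : Baire => x k) '' C n) := (hC n).image (continuous_apply k)
    obtain ⟨b, hb⟩ := this.bddAbove
    exact ⟨b, fun x hx => hb ⟨x, hx, rfl⟩⟩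
  choose b hb using h1
  refine ⟨fun k => (Finset.range (k + 1)).sup fun n => b n k, fun x hx => ?_⟩
  obtain ⟨n, hn⟩ := Set.mem_iUnion.mp (hBC hx)
  filter_upwards [eventually_ge_atTop n] with k hk
  exact (hb n k x hn).trans (Finset.le_sup (f := fun n => b n k)
    (Finset.mem_range.mpr (Nat.lt_succ_of_le hk)))

/-- The code of the restriction of `y` to `m`. -/
def codeUp (m : ℕ) (y : Baire) : ℕ := Encodable.encode ((List.range m).map y)

theorem codeUp_eq {m : ℕ} {y z : Baire} : codeUp m y = codeUp m z ↔ ∀ i < m, y i = z i := by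
  unfold codeUp
  rw [Encodable.encode_inj, List.map_inj_left]
  simp

theorem measurable_codeUp (m : ℕ) : Measurable (codeUp m) := by
  apply measurable_to_countable'
  intro t
  by_cases h : ∃ z, codeUp m z = t
  · obtain ⟨z, rfl⟩ := h
    have : codeUp m ⁻¹' {codeUp m z} = ⋂ i ∈ Finset.range m, {y : Baire | y i = z i} := by
      ext y
      simp only [Set.mem_preimage, Set.mem_singleton_iff, codeUp_eq, Set.mem_iInter,
        Finset.mem_range, Set.mem_ofPred_eq]
    rw [this]
    exact Finset.measurableSet_biInter _ fun i _ => measurableSet_eq_fun (measurable_pi_apply i)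
      measurable_const
  · have : codeUp m ⁻¹' {t} = ∅ := by
      ext y
      simp only [Set.mem_preimage, Set.mem_singleton_iff, Set.mem_empty_iff_false, iff_false]
      exact fun hy => h ⟨y, hy⟩
    rw [this]
    exact MeasurableSet.empty

/-- Long cylinders have small measure, uniformly. -/
theorem exists_small (μ : Measure Baire) [IsProbabilityMeasure μ] [NullSingletonClass μ] {ε : ℝ≥0∞}
    (hε : 0 < ε) : ∃ m, ∀ t, μ {y | codeUp m y = t} ≤ ε := by
  let V : ℕ → Set Baire := fun m => {y | ε < μ {z | codeUp m z = codeUp m y}}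
  have hVm : ∀ m, MeasurableSet (V m) := by
    intro m
    have : V m = codeUp m ⁻¹' {t | ε < μ {z | codeUp m z = t}} := rfl
    rw [this]
    exact measurable_codeUp m (MeasurableSet.of_discrete)
  have hanti : Antitone V := by
    intro a b hab y hy
    refine lt_of_lt_of_le (show ε < μ {z | codeUp b z = codeUp b y} from hy)
      (measure_mono fun z hz => ?_)
    have hz' : codeUp b z = codeUp b y := hz
    change codeUp a z = codeUp a y
    rw [codeUp_eq] at hz' ⊢
    exact fun i hi => hz' i (lt_of_lt_of_le hi hab)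
  have hempty : ⋂ m, V m = ∅ := by
    ext y
    simp only [Set.mem_iInter, Set.mem_empty_iff_false, iff_false]
    intro hy
    have h1 : Tendsto (fun m => μ {z | codeUp m z = codeUp m y}) atTop
        (𝓝 (μ (⋂ m, {z | codeUp m z = codeUp m y}))) := by
      refine tendsto_measure_iInter_atTop
        (fun m => (measurable_codeUp m (measurableSet_singleton _)).nullMeasurableSet) ?_
        ⟨0, measure_ne_top _ _⟩
      intro a b hab z hz
      have hz' : codeUp b z = codeUp b y := hz
      change codeUp a z = codeUp a y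
      rw [codeUp_eq] at hz' ⊢
      exact fun i hi => hz' i (lt_of_lt_of_le hi hab)
    have h2 : ⋂ m, {z | codeUp m z = codeUp m y} = {y} := by
      ext z
      simp only [Set.mem_iInter, Set.mem_ofPred_eq, Set.mem_singleton_iff]
      constructor
      · intro h
        funext i
        exact codeUp_eq.mp (h (i + 1)) i (Nat.lt_succ_self i)
      · rintro rfl m; rfl
    rw [h2, measure_singleton] at h1
    obtain ⟨m, hm⟩ := (h1.eventually (gt_mem_nhds hε)).exists
    exact absurd (hy m) (not_lt.mpr hm.le)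
  have h3 : Tendsto (fun m => μ (V m)) atTop (𝓝 0) := by
    have := tendsto_measure_iInter_atTop (μ := μ) (s := V)
      (fun m => (hVm m).nullMeasurableSet) hanti ⟨0, measure_ne_top _ _⟩
    rwa [hempty, measure_empty] at this
  obtain ⟨m, hm⟩ := (h3.eventually (gt_mem_nhds hε)).exists
  refine ⟨m, fun t => ?_⟩
  by_contra hlt
  push Not at hlt
  have hsub : {y | codeUp m y = t} ⊆ V m := by
    intro y hy
    have hy' : codeUp m y = t := hy
    change ε < μ {z | codeUp m z = codeUp m y}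
    rw [hy']; exact hlt
  exact absurd ((measure_mono hsub).trans hm.le) (not_le.mpr hlt)

/-- Families of size at most `bloc` which are indexed by `BI` are `≠*_N`-bounded if there is
a dominating family of size `bloc` or not; the only case distinction is whether `bloc` many null
sets cover. -/
theorem bounded_BI (μ : Measure Baire) [IsProbabilityMeasure μ] [NullSingletonClass μ]
    (f : BI → Baire → Baire) : ∃ g : Baire → Baire, ∀ i, relMod neStar (idealN μ) (f i) g := by
  by_cases hcov : ∃ M : BI → Set Baire, (∀ i, μ (M i) = 0) ∧ ⋃ i, M i = Set.univ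
  · obtain ⟨M, hM, hU⟩ := hcov
    have h1 : ∀ x : Baire, ∃ i, x ∈ M i := fun x => by
      have : x ∈ ⋃ i, M i := by rw [hU]; trivial
      exact Set.mem_iUnion.mp this
    choose idx hidx using h1
    have h2 : ∀ x : Baire, ∃ g : ℕ → ℕ, ∀ i : Set.Iio (idx x), ∀ᶠ k in atTop, f i.1 x k ≠ g k :=
      fun x => exists_evade (mk_Iio_lt (idx x)) fun i => f i.1 x
    choose g hg using h2
    refine ⟨g, fun i => ?_⟩
    change μ {x | ¬ neStar (f i x) (g x)} = 0
    refine measure_mono_null ?_ (null_iUnion μ (mk_Iic_lt i) (A := fun j : Set.Iic i => M j.1)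
      fun j => hM j.1)
    intro x hx
    rw [Set.mem_iUnion]
    refine ⟨⟨idx x, ?_⟩, hidx x⟩
    by_contra hlt
    rw [Set.mem_Iic, not_le] at hlt
    exact hx (hg x ⟨i, hlt⟩)
  · push Not at hcov
    have hm : ∀ n : ℕ, ∃ m, ∀ t, μ {y | codeUp m y = t} ≤ (2⁻¹ : ℝ≥0∞) ^ n := fun n =>
      exists_small μ (ENNReal.pow_pos (by simp) n)
    choose m hm using hm
    have hnull : ∀ z : Baire, μ {y | ∃ᶠ n in atTop, codeUp (m n) y = z n} = 0 := by
      intro z
      apply measure_setOfPred_frequently_eq_zero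
      refine ne_top_of_le_ne_top ?_ (ENNReal.tsum_le_tsum fun n => hm n (z n))
      rw [ENNReal.tsum_geometric, ENNReal.one_sub_inv_two, inv_inv]
      exact ENNReal.ofNat_ne_top
    have h1 : ∀ x : Baire, ∃ y : Baire, ∀ i, ¬ ∃ᶠ n in atTop, codeUp (m n) y = f i x n := by
      intro x
      have := hcov (fun i => {y | ∃ᶠ n in atTop, codeUp (m n) y = f i x n})
        (fun i => hnull (f i x))
      rw [Ne, Set.eq_univ_iff_forall] at this
      push Not at this
      obtain ⟨y, hy⟩ := this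
      exact ⟨y, fun i hi => hy (Set.mem_iUnion.mpr ⟨i, hi⟩)⟩
    choose y hy using h1
    refine ⟨fun x n => codeUp (m n) (y x), fun i => ?_⟩
    have : {x | ¬ neStar (f i x) (fun n => codeUp (m n) (y x))} = ∅ := by
      ext x
      simp only [Set.mem_ofPred_eq, Set.mem_empty_iff_false, iff_false, not_not]
      have h2 := hy x i
      rw [not_frequently] at h2
      exact h2.mono fun n hn hn' => hn hn'.symm
    change μ {x | ¬ neStar (f i x) (fun n => codeUp (m n) (y x))} = 0
    rw [this, measure_empty]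

theorem bounded_small (μ : Measure Baire) {ι : Type} (hι : #ι < bloc) (f : ι → Baire → Baire) :
    ∃ g : Baire → Baire, ∀ i, relMod neStar (idealN μ) (f i) g := by
  have h1 : ∀ x : Baire, ∃ g : ℕ → ℕ, ∀ i, ∀ᶠ k in atTop, f i x k ≠ g k :=
    fun x => exists_evade hι fun i => f i x
  choose g hg using h1
  refine ⟨g, fun i => ?_⟩
  have : {x | ¬ neStar (f i x) (g x)} = ∅ := by
    ext x
    simp only [Set.mem_ofPred_eq, Set.mem_empty_iff_false, iff_false, not_not]
    exact hg x i
  change μ {x | ¬ neStar (f i x) (g x)} = 0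
  rw [this, measure_empty]

/-- Pairing coordinatewise. -/
def pr (r h : Baire) : Baire := fun n => Nat.pair (r n) (h n + 1)

theorem pr_fst (r h : Baire) : (fun n => (Nat.unpair (pr r h n)).1) = r := by
  funext n; simp [pr]

theorem pr_not_le {r h d : Baire} (hd : ∀ᶠ k in atTop, d k ≤ h k) :
    ¬ ∀ᶠ k in atTop, pr r h k ≤ d k := by
  intro hc
  obtain ⟨k, h1, h2⟩ := (hd.and hc).exists
  have h3 : h k + 1 ≤ pr r h k := Nat.right_le_pair _ _
  omega

/-- The first case: no family of size `bloc` is dominating. -/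
theorem case_one (hnd : ∀ D : BI → Baire, ∃ x : Baire, ∀ i, ¬ ∀ᶠ k in atTop, x k ≤ D i k) :
    bnum inStar idealK ≤ bloc := by
  obtain ⟨z, hz⟩ := exists_family
  rw [← mk_BI]
  refine bnum_le (fun i _ => z i) ?_
  rintro ⟨g, hg⟩
  choose h hh using fun i => K_bounded (hg i)
  obtain ⟨x, hx⟩ := hnd h
  refine hz ⟨(g x).1, (g x).2, fun i => ?_⟩
  by_contra hc
  exact hx i (hh i x hc)

/-- The second case: there is a dominating family of size `bloc < 𝔠`. -/
theorem case_two {D : BI → Baire} (hD : ∀ x : Baire, ∃ i, ∀ᶠ k in atTop, x k ≤ D i k)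
    (hc : bloc < #Baire) : bnum inStar idealK ≤ Order.succ bloc := by
  classical
  obtain ⟨y, hy⟩ := exists_strong
  choose h hh using fun ξ : BI => exists_bound (mk_Iic_lt ξ) fun η : Set.Iic ξ => D η.1
  let J : Type := (Order.succ bloc).ord.ToType
  have hJ : #J = Order.succ bloc := by simp [J]
  have hJle : #J ≤ #Baire := by rw [hJ]; exact Order.succ_le_of_lt hc
  obtain ⟨⟨r, hr⟩⟩ := hJle
  have hIio : ∀ δ : J, #(Set.Iio δ) ≤ #BI := by
    intro δ
    rw [mk_BI]
    exact Order.lt_succ_iff.mp (Cardinal.mk_Iio_toType_ord_lt δ)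
  have he : ∀ δ : J, Nonempty (Set.Iio δ ↪ BI) := fun δ => hIio δ
  let e : ∀ δ : J, Set.Iio δ ↪ BI := fun δ => (he δ).some
  have hBIne : Nonempty BI := by
    rw [← Cardinal.mk_ne_zero_iff, mk_BI]
    exact (aleph0_pos.trans_le aleph0_le_bloc).ne'
  have hJne : Nonempty J := by
    rw [← Cardinal.mk_ne_zero_iff, hJ]
    exact (Order.bot_lt_succ bloc).ne'
  let e' : J → J → BI := fun δ a => if ha : a < δ then e δ ⟨a, ha⟩ else hBIne.some
  let β : Baire → J := fun x => Function.invFun r (fun n => (Nat.unpair (x n)).1)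
  have hβ : ∀ δ h', β (pr (r δ) h') = δ := by
    intro δ h'
    simp only [β, pr_fst]
    exact Function.leftInverse_invFun hr δ
  rw [← hJ]
  refine bnum_le (fun a x => y (e' (β x) a)) ?_
  rintro ⟨g, hg⟩
  have hγ : ∀ a : J, ∃ γ : BI, ∀ x : Baire, ¬ inStar (y (e' (β x) a)) (g x) →
      ∀ᶠ k in atTop, x k ≤ D γ k := by
    intro a
    obtain ⟨b, hb⟩ := K_bounded (hg a)
    obtain ⟨γ, hγ⟩ := hD b
    refine ⟨γ, fun x hx => ?_⟩
    filter_upwards [hb x hx, hγ] with k h1 h2
    exact h1.trans h2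
  choose γ hγ using hγ
  -- a fibre of `γ` of size larger than `bloc`
  have hpig : ∃ γ0 : BI, bloc < #{a : J | γ a = γ0} := by
    by_contra hno
    push Not at hno
    have h1 : #(⋃ γ0 : BI, {a : J | γ a = γ0}) ≤ #BI * ⨆ γ0 : BI, #{a : J | γ a = γ0} :=
      Cardinal.mk_iUnion_le _
    have h2 : (⨆ γ0 : BI, #{a : J | γ a = γ0}) ≤ bloc := ciSup_le' hno
    have h3 : (⋃ γ0 : BI, {a : J | γ a = γ0}) = Set.univ := by
      ext a; simp
    rw [h3, Cardinal.mk_univ, mk_BI, hJ] at h1
    have h4 := h1.trans (mul_le_mul' le_rfl h2)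
    rw [Cardinal.mul_eq_self aleph0_le_bloc] at h4
    exact absurd (Order.lt_succ bloc) (not_lt.mpr h4)
  obtain ⟨γ0, hγ0⟩ := hpig
  obtain ⟨A, hA1, hA2⟩ := Cardinal.le_mk_iff_exists_subset.mp hγ0.le
  -- a bound for `A`
  have hbd : ∃ δ : J, ∀ a ∈ A, a < δ := by
    by_contra hno
    push Not at hno
    have h1 : (⋃ a : A, Set.Iic a.1) = Set.univ := by
      ext δ
      simp only [Set.mem_iUnion, Set.mem_Iic, Set.mem_univ, iff_true]
      obtain ⟨a, ha, ha'⟩ := hno δ
      exact ⟨⟨a, ha⟩, ha'⟩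
    have h2 := Cardinal.mk_iUnion_le (fun a : A => Set.Iic a.1)
    have h3 : (⨆ a : A, #(Set.Iic a.1)) ≤ bloc := by
      refine ciSup_le' fun a => ?_
      have h4 : Set.Iic a.1 = insert a.1 (Set.Iio a.1) := by
        ext m; simp [le_iff_eq_or_lt]
      rw [h4]
      refine (Cardinal.mk_insert_le).trans ?_
      refine (add_le_add (hIio a.1) le_rfl).trans ?_
      rw [mk_BI]
      exact (Cardinal.add_one_eq aleph0_le_bloc).le
    rw [h1, Cardinal.mk_univ, hA2, hJ] at h2
    have h4 := h2.trans (mul_le_mul' le_rfl h3)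
    rw [Cardinal.mul_eq_self aleph0_le_bloc] at h4
    exact absurd (Order.lt_succ bloc) (not_lt.mpr h4)
  obtain ⟨δ, hδ⟩ := hbd
  let x : Baire := pr (r δ) (h γ0)
  have hx : ¬ ∀ᶠ k in atTop, x k ≤ D γ0 k := pr_not_le (hh γ0 ⟨γ0, Set.mem_Iic.mpr le_rfl⟩)
  have hβx : β x = δ := hβ δ _
  have hcap : ∀ a ∈ A, Captured (y (e' δ a)) (g x).1 := by
    intro a ha
    by_contra hc
    have h1 : γ a = γ0 := hA1 ha
    have h2 := hγ a x (by rw [hβx]; exact hc)
    rw [h1] at h2
    exact hx h2
  have hinj : Set.InjOn (e' δ) A := by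
    intro a ha b hb hab
    have h1 : e' δ a = e δ ⟨a, hδ a ha⟩ := dif_pos (hδ a ha)
    have h2 : e' δ b = e δ ⟨b, hδ b hb⟩ := dif_pos (hδ b hb)
    rw [h1, h2] at hab
    exact congrArg Subtype.val ((e δ).injective hab)
  have h5 : bloc ≤ #{ξ : BI | Captured (y ξ) (g x).1} := by
    rw [← hA2, ← Cardinal.mk_image_eq_of_injOn _ _ hinj]
    refine Cardinal.mk_le_mk_of_subset ?_
    rintro _ ⟨a, ha, rfl⟩
    exact hcap a ha
  exact absurd (hy (g x).1 (g x).2) (not_lt.mpr h5)

/-- The third case: there is a dominating family of size `bloc = 𝔠`. -/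
theorem case_three (μ : Measure Baire) [IsProbabilityMeasure μ] [NullSingletonClass μ] {D : BI → Baire}
    (hD : ∀ x : Baire, ∃ i, ∀ᶠ k in atTop, x k ≤ D i k) (hc : bloc = #Baire)
    {ι : Type} (f : ι → Baire → Baire)
    (hf : ¬ ∃ g : Baire → Baire, ∀ i, relMod neStar (idealN μ) (f i) g) :
    bnum inStar idealK ≤ #ι := by
  classical
  obtain ⟨y, hy⟩ := exists_strong
  choose h hh using fun ξ : BI => exists_bound (mk_Iic_lt ξ) fun η : Set.Iic ξ => D η.1
  have hw : #BI = #Baire := by rw [mk_BI, hc]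
  obtain ⟨w⟩ := Cardinal.eq.mp hw
  let ρ : Baire → BI := fun x => w.symm (fun n => (Nat.unpair (x n)).1)
  let σ : BI → Baire := fun ξ => pr (w ξ) (h ξ)
  have hρσ : ∀ ξ, ρ (σ ξ) = ξ := by
    intro ξ
    simp only [ρ, σ, pr_fst]
    exact w.symm_apply_apply ξ
  refine bnum_le (fun i x => y (w.symm (f i (w (ρ x))))) ?_
  rintro ⟨g, hg⟩
  apply hf
  have hγ : ∀ i : ι, ∃ γ : BI, ∀ x : Baire, ¬ inStar (y (w.symm (f i (w (ρ x))))) (g x) →
      ∀ᶠ k in atTop, x k ≤ D γ k := by
    intro i
    obtain ⟨b, hb⟩ := K_bounded (hg i)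
    obtain ⟨γ, hγ⟩ := hD b
    refine ⟨γ, fun x hx => ?_⟩
    filter_upwards [hb x hx, hγ] with k h1 h2
    exact h1.trans h2
  choose γ hγ using hγ
  have hcap : ∀ i ξ, γ i ≤ ξ → Captured (y (w.symm (f i (w ξ)))) (g (σ ξ)).1 := by
    intro i ξ hξ
    by_contra hcon
    have h2 := hγ i (σ ξ) (by rw [hρσ]; exact hcon)
    exact pr_not_le (hh ξ ⟨γ i, hξ⟩) h2
  have hG : ∀ ξ : BI, ∃ G : ℕ → ℕ, ∀ η : {η : BI | Captured (y η) (g (σ ξ)).1},
      ∀ᶠ k in atTop, w η.1 k ≠ G k := fun ξ =>
    exists_evade (hy (g (σ ξ)).1 (g (σ ξ)).2) fun η => w η.1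
  choose G hG using hG
  refine ⟨fun x => G (w.symm x), fun i => ?_⟩
  change μ {x | ¬ neStar (f i x) (G (w.symm x))} = 0
  refine measure_mono_null ?_ (null_iUnion μ (mk_Iic_lt (γ i))
    (A := fun j : Set.Iic (γ i) => {w j.1}) fun j => measure_singleton _)
  intro x hx
  rw [Set.mem_iUnion]
  refine ⟨⟨w.symm x, ?_⟩, by simp⟩
  by_contra hlt
  rw [Set.mem_Iic, not_le] at hlt
  apply hx
  have h1 := hcap i (w.symm x) hlt.le
  rw [w.apply_symm_apply] at h1
  have h2 := hG (w.symm x) ⟨_, h1⟩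
  simp only [w.apply_symm_apply] at h2
  exact h2

/-- In ZFC, `b(∈*_K) ≤ b(≠*_N)`, for the null ideal `N` of any atomless Borel probability measure
on Baire space. Hence `b(≠*_N) < b(∈*_K)` is not consistent. -/
theorem result (μ : Measure (ℕ → ℕ)) [IsProbabilityMeasure μ] (hμ : ∀ x, μ {x} = 0) :
    bnum inStar idealK ≤ bnum neStar (idealN μ) := by
  have : NullSingletonClass μ := ⟨hμ⟩
  have hne : {κ : Cardinal.{0} | ∃ A : Set (Baire → Baire),
      (¬ ∃ g : Baire → Baire, ∀ f ∈ A, relMod neStar (idealN μ) f g) ∧ #A = κ}.Nonempty := by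
    refine ⟨_, Set.univ, ?_, rfl⟩
    rintro ⟨g, hg⟩
    have h1 := hg g trivial
    have h2 : {x | ¬ neStar (g x) (g x)} = Set.univ := by
      ext x
      simp only [Set.mem_ofPred_eq, Set.mem_univ, iff_true]
      intro h3
      obtain ⟨k, hk⟩ := h3.exists
      exact hk rfl
    have h3 : μ {x | ¬ neStar (g x) (g x)} = 0 := h1
    rw [h2, measure_univ] at h3
    exact one_ne_zero h3
  obtain ⟨A, hA, hcard⟩ := csInf_mem hne
  change #A = bnum neStar (idealN μ) at hcard
  rw [← hcard]
  let f : A → Baire → Baire := fun a => a.1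
  have hf : ¬ ∃ g : Baire → Baire, ∀ i, relMod neStar (idealN μ) (f i) g := by
    rintro ⟨g, hg⟩
    exact hA ⟨g, fun a ha => hg ⟨a, ha⟩⟩
  have hle : bloc ≤ #A := by
    by_contra hlt
    exact hf (bounded_small μ (not_le.mp hlt) f)
  by_cases hnd : ∀ D : BI → Baire, ∃ x : Baire, ∀ i, ¬ ∀ᶠ k in atTop, x k ≤ D i k
  · exact (case_one hnd).trans hle
  · push Not at hnd
    obtain ⟨D, hD⟩ := hnd
    have hblocle : bloc ≤ #Baire := by
      obtain ⟨F, _, hF⟩ := bloc_mem
      rw [← hF]; exact Cardinal.mk_set_le F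
    rcases hblocle.lt_or_eq with hc | hc
    · refine (case_two hD hc).trans ?_
      rw [Order.succ_le_iff]
      by_contra hlt
      push Not at hlt
      -- then the family is indexed by `BI`
      have hle' : #A ≤ #BI := by rw [mk_BI]; exact hlt
      have hAne : Nonempty A := by
        rw [← Cardinal.mk_ne_zero_iff]
        exact (aleph0_pos.trans_le (aleph0_le_bloc.trans hle)).ne'
      obtain ⟨⟨e, he⟩⟩ := hle'
      obtain ⟨g, hg⟩ := bounded_BI μ fun i => f (Function.invFun e i)
      refine hf ⟨g, fun a => ?_⟩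
      have := hg (e a)
      rwa [Function.leftInverse_invFun he a] at this
    · exact case_three μ hD hc f hf

end Pool.Agent.Results.MP_1e8244_lc.NullVsCompact
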